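import Pool.Agent.W81.R1.Fin

/-!
Conjecture F of Hardy and Littlewood, with the exact constant, for the polynomials
`a t² + b t + c` with `a, b` given and almost all `c` in every interval of length at least
`x (log x)^B`.
-/

set_option autoImplicit false

namespace Pool.Agent.Results.MP_a17b09_nt.AlmostAllShifts

open Finset Filter

/-- the number of `1 ≤ t ≤ y` with `a t² + b t + c` prime -/
noncomputable def primeCount (a b c : ℤ) (y : ℕ) : ℝ :=
  (((Icc 1 y).filter (fun t : ℕ => Nat.Prime (Int.toNat (a * (t : ℤ) ^ 2 + b * (t : ℤ) + c)))).card : ℝ)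

/-- the sum of `1 / log (a t² + b t + c)` over the `1 ≤ t ≤ y` with `a t² + b t + c ≥ 2` -/
noncomputable def logSum (a b c : ℤ) (y : ℕ) : ℝ :=
  ∑ t ∈ (Icc 1 y).filter (fun t : ℕ => 2 ≤ a * (t : ℤ) ^ 2 + b * (t : ℤ) + c),
    1 / Real.log ((a * (t : ℤ) ^ 2 + b * (t : ℤ) + c : ℤ) : ℝ)

/-- `∏ (1 - (Δ/p)/(p-1))` over the odd primes `p < N` not dividing `a`, where `Δ = b² - 4ac` -/
noncomputable def partialProd (a b c : ℤ) (N : ℕ) : ℝ :=
  ∏ p ∈ (range N).filter (fun p : ℕ => Nat.Prime p ∧ 2 < p ∧ ¬ ((p : ℤ) ∣ a)),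
    (1 - ((jacobiSym (b ^ 2 - 4 * a * c) p : ℤ) : ℝ) / ((p : ℝ) - 1))

/-- the constant `2 C(a,b,c)`, where `K` is the value of the infinite product -/
noncomputable def hlConst (a b : ℤ) (K : ℝ) : ℝ :=
  (if Even (a + b) then (2 : ℝ) else 1) * K *
    ∏ p ∈ (Nat.primeFactors (Int.gcd a b)).filter (fun p : ℕ => 2 < p), ((p : ℝ) / ((p : ℝ) - 1))

open Classical in
/-- **Conjecture F for almost all constant terms in short intervals.** For all `C, U` there are
`B, X₀` such that for all `x ≥ X₀`, all integers `1 ≤ a ≤ (log x)^C`, `|b| ≤ x/(log x)^B`, and every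
interval `(c₀, c₀ + A]` with `|c₀|, A ≤ x² (log x)^C` and length `A ≥ x (log x)^B`, all integers `c`
of the interval but at most `A/(log x)^U` have the following property: if `(a,b,c)` is admissible,
then the infinite product over the odd primes not dividing `a` converges to some `K > 0` and,
uniformly for all `y ≤ x`, the number of `1 ≤ t ≤ y` with `a t² + b t + c` prime equals
`2 C(a,b,c) (∑_{t ≤ y} 1/log(a t² + b t + c) + O*(x/(log x)^U))`. -/
theorem result (C U : ℕ) : ∃ B X0 : ℕ, ∀ x : ℕ, X0 ≤ x → ∀ (a : ℕ) (b c0 : ℤ) (A : ℕ), 1 ≤ a →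
    (a : ℝ) ≤ Real.log x ^ C → |(b : ℝ)| ≤ x / Real.log x ^ B →
    |(c0 : ℝ)| ≤ (x : ℝ) ^ 2 * Real.log x ^ C → x * Real.log x ^ B ≤ A →
    (A : ℝ) ≤ (x : ℝ) ^ 2 * Real.log x ^ C →
    ∃ Bad : Finset ℤ, (Bad.card : ℝ) ≤ A / Real.log x ^ U ∧
      ∀ c : ℤ, c0 < c → c ≤ c0 + A → c ∉ Bad →
        Int.gcd (Int.gcd (a : ℤ) b : ℤ) c = 1 → ¬ IsSquare (b ^ 2 - 4 * (a : ℤ) * c) →
        ¬ (Even ((a : ℤ) + b) ∧ Even c) →
        ∃ K : ℝ, 0 < K ∧ Tendsto (fun N : ℕ => partialProd a b c N) atTop (nhds K) ∧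
          1 / (4 * Real.log x) ≤ hlConst a b K ∧
          ∀ y : ℕ, y ≤ x → |primeCount a b c y - hlConst a b K * logSum a b c y| ≤
            hlConst a b K * (x / Real.log x ^ U) := by
  obtain ⟨B, hB⟩ := Pool.Agent.W81.R1.fin C U
  obtain ⟨X0, hX0⟩ := eventually_atTop.mp (hB.and (Pool.Agent.H442R2.EHI.evt_log_ge 1))
  refine ⟨B, X0, fun x hx a b c0 A ha haC hb hc0 hA hA2 => ?_⟩
  obtain ⟨hx1, hL1⟩ := hX0 x hx
  obtain ⟨Bad, hBad, hgood⟩ := hx1 a b c0 A ha haC hb hc0 hA hA2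
  refine ⟨Bad, hBad, fun c hc1 hc2 hcB hg hsq hpar => ?_⟩
  obtain ⟨K, hK, hlim, hlow, hall⟩ := hgood c (mem_Ioc.2 ⟨hc1, hc2⟩) hcB hg hsq hpar
  refine ⟨K, hK, hlim, ?_, fun y hy => ?_⟩
  · refine hlow.trans (le_of_eq ?_)
    unfold hlConst Pool.Agent.W80.EC.Gf Pool.Agent.W80.EC.ep
    rfl
  · have h1 := hall y hy
    have e1 : Pool.Agent.H300R2.BH.pv (Pool.Agent.W80.EC.q2 a b c) y = primeCount a b c y := by
      unfold Pool.Agent.H300R2.BH.pv primeCount
      simp_rw [Pool.Agent.W80.EC.q2_eval]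
    have e2 : Pool.Agent.H300R2.BH.lF (Pool.Agent.W80.EC.q2 a b c) y = logSum a b c y := by
      unfold Pool.Agent.H300R2.BH.lF logSum
      simp_rw [Pool.Agent.W80.EC.q2_eval]
    have e3 : Pool.Agent.W80.EC.ep a b * K * Pool.Agent.W80.EC.Gf a b = hlConst a b K := rfl
    rw [e1, e2, e3] at h1
    refine h1.trans ?_
    have h2 : 0 ≤ hlConst a b K := by
      rw [← e3]
      refine le_trans ?_ hlow
      positivity
    apply mul_le_mul_of_nonneg_left _ h2
    apply div_le_div_of_nonneg_left (Nat.cast_nonneg _) (by positivity)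
    exact pow_le_pow_right₀ hL1 (Nat.le_succ _)

end Pool.Agent.Results.MP_a17b09_nt.AlmostAllShifts
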