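import Pool.Agent.W149.CS.Main

set_option autoImplicit false

/-!
# Simultaneous composite values of a finite system of polynomials

Let `f 0, ..., f (r - 1)` be nonconstant integer polynomials with positive leading coefficients
(for Conjecture F: quadratic polynomials), and let `A` be given. There is `c > 0` such that for all
large `Y`, every `M ≥ 0` and every set `P` of at most `c log Y log log Y` pairs `(i, k)` with
`|k| ≤ (log Y) ^ A`, there is an integer `x` with `M < x ≤ M + Y` such that `f i (x + k)` is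
composite for all pairs `(i, k)` in `P`.

With `A = 2`, all pairs `(i, k)` with `0 ≤ k ≤ c' log Y log log Y`, and `Y / 2` for `Y`: every
interval `(M, M + Y]` contains a common string of at least `c' log Y log log Y` consecutive
integers at which all polynomials of the system take composite values only.
-/

namespace Pool.Agent.Results.MP_a17b09_nt.CompositeStrings

open Polynomial

theorem result (r : ℕ) (f : Fin r → ℤ[X]) (hd : ∀ i, 0 < (f i).natDegree)
    (hl : ∀ i, 0 < (f i).leadingCoeff) (A : ℕ) :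
    ∃ c : ℝ, 0 < c ∧ ∃ Y₀ : ℝ, ∀ Y : ℝ, Y₀ ≤ Y → ∀ M : ℤ, 0 ≤ M →
      ∀ P : Finset (Fin r × ℤ), (∀ q ∈ P, |(q.2 : ℝ)| ≤ Real.log Y ^ A) →
        (P.card : ℝ) ≤ c * Real.log Y * Real.log (Real.log Y) →
        ∃ x : ℤ, M < x ∧ (x : ℝ) ≤ M + Y ∧ ∀ q ∈ P,
          1 < (f q.1).eval (x + q.2) ∧ ¬ Prime ((f q.1).eval (x + q.2)) := by
  obtain ⟨c, hc, Y₀, h⟩ := Pool.Agent.W149.CS.main r f hd hl A
  refine ⟨c, hc, max Y₀ 1, fun Y hY M hM P hP hPc => ?_⟩
  have hY1 : 1 ≤ Y := (le_max_right _ _).trans hY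
  obtain ⟨x, h1, h2, h3⟩ := h Y ((le_max_left _ _).trans hY) M hM P hP hPc
  refine ⟨x, ?_, h2, h3⟩
  have h4 : (M : ℝ) < x := by linarith
  exact_mod_cast h4

end Pool.Agent.Results.MP_a17b09_nt.CompositeStrings
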