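import Mathlib
import Pool.Agent.H373R2.T4.NearMainG
import Pool.Agent.W468.CFMost

set_option autoImplicit false

/-!
Conjecture F of Hardy and Littlewood for a positive proportion of constant terms, with the full constant: for all
`a ≥ 1`, `b`, `δ > 0`, `θ < 1`, all large `x` and `x^(1/2+δ) ≤ H ≤ x^2/4`, a positive proportion of the `c ≤ H` is such that
`(a, b, c)` is admissible and `f(t) = a t^2 + b t + c` is prime for at least `θ C(a, b, c) x / log x` integers `1 ≤ t ≤ x`.
-/

namespace Pool.Agent.Results.MP_a17b09_nt.ConstantTermProportion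
open Finset Polynomial Filter Topology Pool.Agent.H373R2.BH
open Pool.Agent.W468.ConjF (Admissible piF CF P)

open Classical in
theorem result (a b : ℤ) (ha : 0 < a) (δ : ℝ) (hδ : 0 < δ) (θ : ℝ) (hθ0 : 0 < θ) (hθ1 : θ < 1) :
    ∃ κ : ℝ, 0 < κ ∧ ∃ x₀ : ℕ, ∀ x : ℕ, x₀ ≤ x → ∀ H : ℕ, (x : ℝ) ^ (1 / 2 + δ) ≤ H → 4 * H ≤ x ^ 2 →
      κ * H ≤ #((Icc 1 H).filter (fun c : ℕ => Admissible a b c ∧
        ∃ K : ℝ, 0 < K ∧ Tendsto (fun z : ℕ => CF a b c z) atTop (𝓝 K) ∧
          θ * K * (x / Real.log x) ≤ piF a b c x ∧ κ * (x / Real.log x) ≤ piF a b c x)) := by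
  -- the parameter of the starting theorem
  have h1 : 0 < min (1 / 8 : ℝ) (δ / 2) := by positivity
  have h2 : min (1 / 8 : ℝ) (δ / 2) ≤ 1 / 8 := min_le_left _ _
  have h3 : min (1 / 8 : ℝ) (δ / 2) ≤ δ / 2 := min_le_right _ _
  set ν : ℝ := 1 / 4 - min (1 / 8 : ℝ) (δ / 2) with hν
  have hν0 : 0 < ν := by linarith
  have hν1 : 4 * ν < 1 := by linarith
  have hdeg : (P a b 0).natDegree = 2 := Pool.Agent.W468.ConjF.natDegree_P a b 0 ha
  set θ₁ : ℝ := (1 + θ) / 2 with hθ₁
  have hθ₁0 : 0 < θ₁ := by rw [hθ₁]; linarith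
  have hθ₁1 : θ₁ < 1 := by rw [hθ₁]; linarith
  have hθθ₁ : θ < θ₁ := by rw [hθ₁]; linarith
  obtain ⟨c₁, hc₁, y₀, x₁, hmain⟩ := Pool.Agent.H373R2.T4.shift_near 1 le_rfl (P a b 0) (by rw [hdeg])
    (by rw [Pool.Agent.W468.ConjF.leadingCoeff_P a b 0 ha]; exact ha) ν hν0 hν1
    (by rw [hdeg]; push_cast; linarith) (by rw [hdeg]; push_cast; linarith) θ₁ hθ₁0 hθ₁1
  -- the precision
  set ε : ℝ := Real.log (θ₁ / θ) / 2 with hε
  have hε0 : 0 < ε := by
    apply div_pos _ (by norm_num)
    apply Real.log_pos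
    rw [lt_div_iff₀ hθ0]; linarith
  obtain ⟨z₀, hz₀⟩ := Pool.Agent.W468.ConjF.good_most a b ha ε (c₁ / 2) hε0 (by positivity)
  set z := max (max z₀ y₀) (max (max 2 a.toNat) ⌈1 / ε⌉₊) with hz
  have hzz₀ : z₀ ≤ z := (le_max_left _ _).trans (le_max_left _ _)
  have hzy₀ : y₀ ≤ z := (le_max_right _ _).trans (le_max_left _ _)
  have hz2 : 2 ≤ z := ((le_max_left _ _).trans (le_max_left _ _)).trans (le_max_right _ _)
  have hza' : a.toNat ≤ z := ((le_max_right _ _).trans (le_max_left _ _)).trans (le_max_right _ _)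
  have hza : a ≤ z := by omega
  have hzε' : ⌈1 / ε⌉₊ ≤ z := (le_max_right _ _).trans (le_max_right _ _)
  have hzε : 1 / (z : ℝ) ≤ ε := by
    have h4 : 1 / ε ≤ z := (Nat.le_ceil _).trans (by exact_mod_cast hzε')
    have hz0 : (0 : ℝ) < z := by exact_mod_cast (by omega : 0 < z)
    rw [div_le_iff₀ hz0]
    rw [div_le_iff₀ hε0] at h4
    linarith
  obtain ⟨H₀, hH₀⟩ := hz₀ z hzz₀
  refine ⟨c₁ / 2, by positivity, max (max x₁ 1) ((max H₀ (z ^ 6)) ^ 2), fun x hx H hH1 hH2 => ?_⟩
  have hxx₁ : x₁ ≤ x := ((le_max_left _ _).trans (le_max_left _ _)).trans hx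
  have hx1 : 1 ≤ x := ((le_max_right _ _).trans (le_max_left _ _)).trans hx
  have hxM : (max H₀ (z ^ 6)) ^ 2 ≤ x := (le_max_right _ _).trans hx
  have hx1' : (1 : ℝ) ≤ x := by exact_mod_cast hx1
  -- `H` is large
  have hHM : max H₀ (z ^ 6) ≤ H := by
    have h4 : ((max H₀ (z ^ 6) : ℕ) : ℝ) ≤ H := by
      calc ((max H₀ (z ^ 6) : ℕ) : ℝ) = (((max H₀ (z ^ 6) : ℕ) : ℝ) ^ 2) ^ ((1 : ℝ) / 2) := by
            rw [← Real.rpow_natCast, ← Real.rpow_mul (by positivity)]
            norm_num
        _ ≤ (x : ℝ) ^ ((1 : ℝ) / 2) := by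
            apply Real.rpow_le_rpow (by positivity) _ (by norm_num)
            exact_mod_cast hxM
        _ ≤ (x : ℝ) ^ (1 / 2 + δ) := Real.rpow_le_rpow_of_exponent_le hx1' (by linarith)
        _ ≤ H := hH1
    exact_mod_cast h4
  have hHH₀ : H₀ ≤ H := (le_max_left _ _).trans hHM
  have hHz : z ^ 6 ≤ H := (le_max_right _ _).trans hHM
  obtain ⟨E, hEc, hE⟩ := hH₀ H hHH₀
  have hm := hmain x hxx₁ H (by
      refine le_trans ?_ hH1
      rw [hdeg]
      apply Real.rpow_le_rpow_of_exponent_le hx1'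
      push_cast
      linarith) (by rw [hdeg]; norm_num; exact hH2) z hzy₀ hHz
  rw [pow_one] at hm
  -- the map from the tuples
  set S := (Fintype.piFinset fun _ : Fin 1 => Icc 1 H).filter (fun h =>
        BHFamily (fun i => P a b 0 + C (h i : ℤ)) ∧
        θ₁ * eulerProduct (fun i => P a b 0 + C (h i : ℤ)) z * (x / ((P a b 0).natDegree * Real.log x) ^ 1) ≤
          primeCount (fun i => P a b 0 + C (h i : ℤ)) x ∧
        c₁ * (x / (Real.log x) ^ 1) ≤ primeCount (fun i => P a b 0 + C (h i : ℤ)) x) with hS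
  set G := (Icc 1 H).filter (fun c : ℕ => Admissible a b c ∧
        ∃ K : ℝ, 0 < K ∧ Tendsto (fun z : ℕ => CF a b c z) atTop (𝓝 K) ∧
          θ * K * (x / Real.log x) ≤ piF a b c x ∧ c₁ / 2 * (x / Real.log x) ≤ piF a b c x) with hG
  have hcard : #S ≤ #(G ∪ E) := by
    apply card_le_card_of_injOn (fun h => h 0)
    · intro h hh
      rw [mem_coe, hS, mem_filter, Fintype.mem_piFinset] at hh
      obtain ⟨hI, hBH, hA, hB⟩ := hh
      rw [mem_coe, mem_union]
      by_cases hcE : h 0 ∈ E
      · exact Or.inr hcE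
      · left
        set c : ℕ := h 0 with hc
        have hF : ∀ i : Fin 1, (fun i : Fin 1 => P a b 0 + C (h i : ℤ)) i = P a b c := by
          intro i
          rw [Subsingleton.elim i 0]
          simp only [P, map_zero, add_zero]
          rfl
        have hadm : Admissible a b c := by
          apply Pool.Agent.W468.ConjF.admissible_of a b c ha
          · have := hBH.2.1 0
            rwa [hF 0] at this
          · obtain ⟨n, hn⟩ := hBH.2.2.2.2 2 Nat.prime_two
            refine ⟨n, fun hd => hn ?_⟩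
            rw [Fin.prod_univ_one, hF 0]
            exact_mod_cast hd
        obtain ⟨K, hK0, hK⟩ := Pool.Agent.W468.ConjF.CF_tendsto a b c ha hadm.2.2.2
        have hgood := hE c (hI 0) hcE hadm.2.2.2
        have hKle := Pool.Agent.W468.ConjF.CF_limit_le a b c ha K hK z hz2 hza ε hgood
        have heul := Pool.Agent.W468.ConjF.euler_eq a b c hadm z hz2 _ hF
        have hpc := Pool.Agent.W468.ConjF.primeCount_eq a b c x _ hF
        rw [heul, hpc, hdeg] at hA
        rw [hpc] at hB
        have hlog : 0 ≤ Real.log x := Real.log_nonneg hx1'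
        rw [hG, mem_filter]
        refine ⟨hI 0, hadm, K, hK0, hK, ?_, ?_⟩
        · refine le_trans ?_ hA
          have hCF := Pool.Agent.W468.ConjF.CF_pos a b c z
          have h5 : θ * K ≤ θ₁ * CF a b c z := by
            have h6 : Real.exp (ε + 1 / z) ≤ θ₁ / θ := by
              calc Real.exp (ε + 1 / z) ≤ Real.exp (Real.log (θ₁ / θ)) := by
                    apply Real.exp_le_exp.2
                    have : Real.log (θ₁ / θ) = ε + ε := by rw [hε]; ring
                    linarith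
                _ = θ₁ / θ := Real.exp_log (by positivity)
            calc θ * K ≤ θ * (CF a b c z * Real.exp (ε + 1 / z)) := mul_le_mul_of_nonneg_left hKle hθ0.le
              _ ≤ θ * (CF a b c z * (θ₁ / θ)) := by gcongr
              _ = θ₁ * CF a b c z := by field_simp
          have h7 : θ₁ * (2 * CF a b c z) * ((x : ℝ) / (((2 : ℕ) : ℝ) * Real.log x) ^ 1) = θ₁ * CF a b c z * (x / Real.log x) := by
            rw [pow_one]
            push_cast
            rcases hlog.eq_or_lt with h8 | h8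
            · rw [← h8]; simp
            · field_simp
          rw [h7]
          exact mul_le_mul_of_nonneg_right h5 (by positivity)
        · refine le_trans ?_ hB
          rw [pow_one]
          apply mul_le_mul_of_nonneg_right (by linarith) (by positivity)
    · intro h _ h' _ heq
      funext i
      rw [Subsingleton.elim i 0]
      exact heq
  have h8 : (#S : ℝ) ≤ #G + #E := by
    have := hcard.trans (card_union_le G E)
    exact_mod_cast this
  linarith

end Pool.Agent.Results.MP_a17b09_nt.ConstantTermProportion
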